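import Pool.Agent.D0H10.L9D.Stm
import Pool.Agent.D0H69.L3K.Bad
import Pool.Agent.D0H69.L3K.Hal
import Pool.Agent.D0H69.L3K.Tq

/-!
# Project L9, module DENKN: few sets have degenerate labels

The labels `nq`, `yq` are not degenerate if they are not for all the characters `t nq + s yq`.
-/

set_option autoImplicit false

open scoped Classical

namespace Pool.Agent.D0H10.L9D

open Finset
open Pool.Agent.Y692.QS (Ei w nr)
open Pool.Agent.Y715.T.Rec (cs)
open Pool.Agent.Y703.CX (zz kk)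
open Pool.Agent.Y703.XK (sm la)
open Pool.Agent.R419.KF (SG)
open Pool.Agent.N883.FF (nq)
open Pool.Agent.D0H43.L3 (tq yq)
open Pool.Agent.D0H43.L3.Chi (tq_mul tq_congr yq_one nq_one)
open Pool.Agent.D0H69.L3K (Tau NdT S_BADT S_HALT hal bad cop_of_nr)

/-- the character `t nq + s yq` -/
def ta (x : ZMod 3 × ZMod 3) (α : Ei) : ZMod 3 := x.1 * nq α + x.2 * yq α

lemma ta_eq (x : ZMod 3 × ZMod 3) (α : Ei) :
    ta x α = x.1 * (tq 1 α - tq 0 α) + x.2 * tq 0 α := by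
  unfold ta tq
  ring

lemma tau_ta {x : ZMod 3 × ZMod 3} (hx : x ≠ 0) : Tau (ta x) := by
  refine ⟨fun a b ha hb => ?_, fun a b h => ?_, ?_⟩
  · rw [ta_eq, ta_eq, ta_eq, tq_mul 1 (cop_of_nr ha) (cop_of_nr hb),
      tq_mul 0 (cop_of_nr ha) (cop_of_nr hb)]
    ring
  · obtain ⟨t, ht⟩ := h
    rw [ta_eq, ta_eq, tq_congr 1 ht, tq_congr 0 ht]
  · by_cases h1 : x.1 = 0
    · refine ⟨1 + 3 * w, ⟨w, by ring⟩, ?_⟩
      unfold ta
      rw [yq_one, nq_one, h1, zero_mul, zero_add]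
      have h2 : x.2 ≠ 0 := fun h2 => hx (Prod.ext h1 h2)
      have h3 : (w : Ei).im = 1 := by decide
      rw [h3]
      simpa using h2
    · refine ⟨1 + 3 * 1, ⟨1, by ring⟩, ?_⟩
      unfold ta
      rw [yq_one, nq_one]
      have h3 : (1 : Ei).re = 1 := by decide
      have h2 : (1 : Ei).im = 0 := by decide
      rw [h3, h2]
      simpa using h1

/-- degenerate labels are degenerate for one of the characters -/
theorem not_ndN {S₀ T : Finset Ei} (h : ¬ NdN S₀ T) :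
    ∃ x : ZMod 3 × ZMod 3, x ≠ 0 ∧ ¬ NdT (ta x) S₀ T := by
  unfold NdN at h
  push Not at h
  obtain ⟨v, t, s, h1, h2⟩ := h
  by_cases h0 : (t, s) = (0, 0)
  · have ht : t = 0 := congrArg Prod.fst h0
    have hs : s = 0 := congrArg Prod.snd h0
    refine ⟨(1, 0), by decide, ?_⟩
    unfold NdT
    push Not
    refine ⟨v, 0, ?_, fun π hπ => ?_⟩
    · rcases h1 with h1 | h1 | h1
      · exact Or.inl h1
      · exact absurd ht h1
      · exact absurd hs h1
    · have h3 := h2 π hπ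
      rw [ht, hs, zero_mul, zero_mul, add_zero, add_zero] at h3
      rw [zero_mul, add_zero]
      exact h3
  · refine ⟨(t, s), h0, ?_⟩
    unfold NdT
    push Not
    refine ⟨v, 1, Or.inr one_ne_zero, fun π hπ => ?_⟩
    rw [← h2 π hπ]
    unfold ta
    ring

theorem badN : S_BADN := by
  intro ε hε
  have h1 : ∀ x : ZMod 3 × ZMod 3, ∃ X₀ : ℕ, ∀ X : ℕ, X₀ ≤ X → x ≠ 0 →
      (((SG X).filter fun S => S.card ≤ kk X ∧
        ¬ NdT (ta x) (sm (zz X) S) (la (zz X) S)).card : ℝ) ≤ ε / 9 * X := by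
    intro x
    by_cases hx : x = 0
    · exact ⟨0, fun X _ h => absurd hx h⟩
    · obtain ⟨X₀, h⟩ := bad (hal (tau_ta hx)) (ε / 9) (by positivity)
      exact ⟨X₀, fun X hX _ => h X hX⟩
  choose X₀ hX₀ using h1
  refine ⟨univ.sup X₀, fun X hX => ?_⟩
  have hsub : ((SG X).filter fun S => S.card ≤ kk X ∧ ¬ NdN (sm (zz X) S) (la (zz X) S)) ⊆
      (univ.filter fun x : ZMod 3 × ZMod 3 => x ≠ 0).biUnion fun x =>
        (SG X).filter fun S => S.card ≤ kk X ∧ ¬ NdT (ta x) (sm (zz X) S) (la (zz X) S) := by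
    intro S hS
    rw [mem_filter] at hS
    obtain ⟨x, hx, hx2⟩ := not_ndN hS.2.2
    rw [mem_biUnion]
    exact ⟨x, mem_filter.2 ⟨mem_univ _, hx⟩, mem_filter.2 ⟨hS.1, hS.2.1, hx2⟩⟩
  have h2 : (((SG X).filter fun S => S.card ≤ kk X ∧
      ¬ NdN (sm (zz X) S) (la (zz X) S)).card : ℝ) ≤
      ∑ x ∈ univ.filter (fun x : ZMod 3 × ZMod 3 => x ≠ 0),
        (((SG X).filter fun S => S.card ≤ kk X ∧
          ¬ NdT (ta x) (sm (zz X) S) (la (zz X) S)).card : ℝ) := by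
    exact_mod_cast (card_le_card hsub).trans card_biUnion_le
  have h3 : ∑ x ∈ univ.filter (fun x : ZMod 3 × ZMod 3 => x ≠ 0),
        (((SG X).filter fun S => S.card ≤ kk X ∧
          ¬ NdT (ta x) (sm (zz X) S) (la (zz X) S)).card : ℝ) ≤
      ∑ _x ∈ univ.filter (fun x : ZMod 3 × ZMod 3 => x ≠ 0), ε / 9 * X := by
    refine sum_le_sum fun x hx => hX₀ x X ?_ (mem_filter.1 hx).2
    exact (Finset.le_sup (f := X₀) (mem_univ x)).trans hX
  have h4 : (univ.filter fun x : ZMod 3 × ZMod 3 => x ≠ 0).card = 8 := by decide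
  rw [sum_const, h4, nsmul_eq_mul] at h3
  have h5 : (0 : ℝ) ≤ ε * X := by positivity
  push_cast at h3
  linarith

end Pool.Agent.D0H10.L9D
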