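import Pool.Agent.D0H10.L9D.Stm
import Pool.Agent.N883.FF.Tot

/-!
# Project L9, module DENKN: the sum over the sets `M` of the primes with exponent `2`, elements

Adapted from the file `D0H69/L3K/Tot.lean` of helper69 (after `Sum.lean` and `NS.lean` of
`Pool/Agent/R419/KF`, helper419).
-/

set_option autoImplicit false

open scoped Classical
open Finset Filter

namespace Pool.Agent.D0H10.L9D

namespace Tot

open Pool.Agent.Y692.QS (Ei w nr toC)
open Pool.Agent.Y715.T.Rec (cs)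
open Pool.Agent.Y715.T.RecG (Pq)
open Pool.Agent.Y715.T.Gi (CF)
open Pool.Agent.Y699.E
open Pool.Agent.Y703.CT (Dt pD)
open Pool.Agent.Y703.XK (c9 S_C9 S_LOW SS)
open Pool.Agent.Y433.XK (pN pN_pos)
open Pool.Agent.R419.KF (wt SG el mem_SG sub_QB prod_ppos ff ff_nonneg ff_sum ff_summable el_ne
  el_prm nrm_el el_inj cf_el ex_pair sg_empty wt_ne SW_empty mem_SW)
open Pool.Agent.N883.FF (ClU SU ClP)
open Pool.Agent.N883.FF.Tot (mem_SU Nt su_le low_Nt card_eq card_cls)

/-- the number of the good pairs -/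
noncomputable def Gt (i : ZMod 3) (X : ℕ) : ℕ :=
  ∑ M ∈ SG X, ((SU M (X / pN M)).filter (GdN i M)).card

theorem abs_le_card (hc9 : S_C9) (i : ZMod 3) (M : Finset Ei) (Y : ℕ) :
    |(((SU M Y).filter (GdN i M)).card : ℝ) - c9 * ((SU M Y).card : ℝ)| ≤
      ((SU M Y).card : ℝ) := by
  have h2 : (((SU M Y).filter (GdN i M)).card : ℝ) ≤ ((SU M Y).card : ℝ) := by
    exact_mod_cast card_filter_le _ _
  have h3 : (0 : ℝ) ≤ ((SU M Y).card : ℝ) := Nat.cast_nonneg _
  exact Pool.Agent.Y703.CX.abs_sub_le_of (Nat.cast_nonneg _) h2 (mul_nonneg hc9.2.1.le h3)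
    (mul_le_of_le_one_left h3 hc9.2.2.1.le)

/-- the error -/
theorem err (hc9 : S_C9) {i : ZMod 3} (hA : AsyN i) (δ : ℝ) (hδ : 0 < δ) :
    ∀ᶠ X : ℕ in atTop, |(Gt i X : ℝ) - c9 * (Nt X : ℝ)| ≤ δ * X := by
  obtain ⟨T₀, hT₀⟩ := (summable_iff_vanishing_norm.1 ff_summable) (δ / 32) (by positivity)
  set ε' : ℝ := δ / (2 * ((T₀.card : ℝ) + 1)) with hε'
  have hε'0 : 0 < ε' := by positivity
  have hev : ∀ᶠ X : ℕ in atTop, ∀ M ∈ T₀.filter (fun M => ∀ q ∈ M, Pq q),
      |(((SU M (X / pN M)).filter (GdN i M)).card : ℝ) - c9 * ((SU M (X / pN M)).card : ℝ)| ≤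
        ε' * X := by
    rw [eventually_all_finset]
    intro M hM
    have hp := pN_pos (mem_filter.1 hM).2
    obtain ⟨X₀, hX₀⟩ := hA M ε' hε'0
    filter_upwards [eventually_ge_atTop (X₀ * pN M)] with X hX
    have h5 : X₀ ≤ X / pN M := (Nat.le_div_iff_mul_le hp).2 hX
    refine (hX₀ _ h5).trans ?_
    have h6 : ((X / pN M : ℕ) : ℝ) ≤ X := by exact_mod_cast Nat.div_le_self _ _
    gcongr
  filter_upwards [hev] with X hX
  have k1 : (Gt i X : ℝ) - c9 * (Nt X : ℝ) = ∑ M ∈ SG X,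
      ((((SU M (X / pN M)).filter (GdN i M)).card : ℝ) -
        c9 * ((SU M (X / pN M)).card : ℝ)) := by
    rw [sum_sub_distrib, ← mul_sum]
    unfold Gt Nt
    push_cast
    rfl
  have hX0 : (0 : ℝ) ≤ X := Nat.cast_nonneg _
  rw [k1]
  refine (abs_sum_le_sum_abs _ _).trans ?_
  rw [← sum_filter_add_sum_filter_not (SG X) (fun M => M ∈ T₀)]
  have k2 : ∑ M ∈ (SG X).filter (fun M => M ∈ T₀),
      |(((SU M (X / pN M)).filter (GdN i M)).card : ℝ) -
      c9 * ((SU M (X / pN M)).card : ℝ)| ≤ δ / 2 * X := by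
    have k3 : ∑ M ∈ (SG X).filter (fun M => M ∈ T₀),
        |(((SU M (X / pN M)).filter (GdN i M)).card : ℝ) -
          c9 * ((SU M (X / pN M)).card : ℝ)| ≤
        ∑ M ∈ (SG X).filter (fun M => M ∈ T₀), ε' * X := by
      refine sum_le_sum fun M hM => hX M ?_
      rw [mem_filter] at hM ⊢
      exact ⟨hM.2, (mem_SG.1 hM.1).1⟩
    refine k3.trans ?_
    rw [sum_const, nsmul_eq_mul]
    have k4 : ((((SG X).filter fun M => M ∈ T₀).card : ℕ) : ℝ) ≤ (T₀.card : ℝ) + 1 := by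
      have : ((SG X).filter fun M => M ∈ T₀).card ≤ T₀.card :=
        card_le_card fun M hM => (mem_filter.1 hM).2
      have h6 : ((((SG X).filter fun M => M ∈ T₀).card : ℕ) : ℝ) ≤ (T₀.card : ℝ) := by
        exact_mod_cast this
      linarith
    have k5 : (0 : ℝ) < (T₀.card : ℝ) + 1 := by positivity
    calc ((((SG X).filter fun M => M ∈ T₀).card : ℕ) : ℝ) * (ε' * X) ≤
        ((T₀.card : ℝ) + 1) * (ε' * X) := by gcongr
      _ = δ / 2 * X := by
        rw [hε']
        field_simp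
  have k3 : ∑ M ∈ (SG X).filter (fun M => ¬ M ∈ T₀),
      |(((SU M (X / pN M)).filter (GdN i M)).card : ℝ) - c9 * ((SU M (X / pN M)).card : ℝ)| ≤
      δ / 2 * X := by
    have k4 : ∑ M ∈ (SG X).filter (fun M => ¬ M ∈ T₀),
        |(((SU M (X / pN M)).filter (GdN i M)).card : ℝ) -
          c9 * ((SU M (X / pN M)).card : ℝ)| ≤
        ∑ M ∈ (SG X).filter (fun M => ¬ M ∈ T₀), 16 * (X * ff M) := by
      refine sum_le_sum fun M hM => (abs_le_card hc9 i M _).trans (su_le ?_ X)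
      exact (mem_SG.1 (mem_filter.1 hM).1).1
    refine k4.trans ?_
    rw [← mul_sum, ← mul_sum]
    have k5 := hT₀ ((SG X).filter fun M => ¬ M ∈ T₀) (by
      rw [disjoint_left]
      intro M hM hM'
      exact (mem_filter.1 hM).2 hM')
    have k6 := (le_abs_self _).trans ((Real.norm_eq_abs _).symm.le.trans k5.le)
    calc 16 * ((X : ℝ) * ∑ M ∈ (SG X).filter (fun M => ¬ M ∈ T₀), ff M) ≤
        16 * ((X : ℝ) * (δ / 32)) := by gcongr
      _ = δ / 2 * X := by ring
  calc _ ≤ δ / 2 * X + δ / 2 * X := add_le_add k2 k3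
    _ = δ * X := by ring

/-- the limit -/
theorem lim (hc9 : S_C9) (hLo : S_LOW) {i : ZMod 3} (hA : AsyN i) :
    Tendsto (fun X : ℕ => (Gt i X : ℝ) / (Nt X : ℝ)) atTop (nhds c9) := by
  obtain ⟨c, X₀, hc, hlow⟩ := low_Nt hLo
  rw [Metric.tendsto_nhds]
  intro ε hε
  filter_upwards [err hc9 hA (c * ε / 2) (by positivity), eventually_ge_atTop (max X₀ 1)]
    with X hX hX0
  have hlo := hlow X ((le_max_left _ _).trans hX0)
  have hX1 : (0 : ℝ) < X := by exact_mod_cast (le_max_right _ _).trans hX0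
  have hN : (0 : ℝ) < Nt X := lt_of_lt_of_le (by positivity) hlo
  rw [Real.dist_eq]
  have e3 : (Gt i X : ℝ) / (Nt X : ℝ) - c9 = ((Gt i X : ℝ) - c9 * (Nt X : ℝ)) / (Nt X : ℝ) := by
    field_simp
  rw [e3, abs_div, abs_of_pos hN, div_lt_iff₀ hN]
  calc |(Gt i X : ℝ) - c9 * (Nt X : ℝ)| ≤ c * ε / 2 * X := hX
    _ = ε / 2 * (c * X) := by ring
    _ ≤ ε / 2 * (Nt X : ℝ) := by gcongr
    _ < ε * (Nt X : ℝ) := by
      apply mul_lt_mul_of_pos_right _ hN
      linarith

end Tot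

open Pool.Agent.Y692.QS (Ei nr)
open Pool.Agent.Y715.T.Rec (cs)
open Pool.Agent.Y699.E (eq_of_dvd)
open Pool.Agent.Y703.CT (Dt pD)
open Pool.Agent.Y703.XK (c9)
open Pool.Agent.R419.KF (wt el wt_ne)
open Pool.Agent.N883.FF (ClU ClP)
open Pool.Agent.D0H43.L9 (KerN)

/-- the proportion among the cube-free primary elements -/
theorem tot (hc9 : Pool.Agent.Y703.XK.S_C9) (hLo : Pool.Agent.Y703.XK.S_LOW) {i : ZMod 3} (hA : AsyN i) (T : Ei → Prop)
    (hT : ∀ M S : Finset Ei, ClU M S → (T (el M S) ↔ GdN i M S)) :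
    Filter.Tendsto (fun X : ℕ => ({D : Ei | nr D ≤ X ∧ ClP D ∧ T D}.ncard : ℝ) /
      ({D : Ei | nr D ≤ X ∧ ClP D}.ncard : ℝ)) Filter.atTop (nhds c9) := by
  refine (Tot.lim hc9 hLo hA).congr fun X => ?_
  rw [Pool.Agent.N883.FF.Tot.card_cls, Pool.Agent.N883.FF.Tot.card_eq X (GdN i) T hT]
  rfl

/-- the factorization of an element of the class -/
theorem datt {M S : Finset Ei} (hMS : ClU M S) (hSn : S.Nonempty) (i : ZMod 3) :
    ∃ (n : ℕ) (π : Fin (n + 1) → Ei) (e : Fin (n + 1) → ZMod 3),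
      Dt π e ∧ el M S = pD π e ∧ (GdN i M S ↔ KerN π e i) := by
  obtain ⟨hS, hM⟩ := hMS
  have hne : S.card ≠ 0 := (card_pos.2 hSn).ne'
  obtain ⟨n, hn⟩ := Nat.exists_eq_succ_of_ne_zero hne
  set eq : S ≃ Fin (n + 1) := S.equivFinOfCardEq hn with heq
  set π : Fin (n + 1) → Ei := fun i => (eq.symm i : Ei) with hπ
  have hmem : ∀ i, π i ∈ S := fun i => (eq.symm i).2
  have hinj : Function.Injective π := fun a b hab => eq.symm.injective (Subtype.ext hab)
  have himg : Finset.univ.image π = S := by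
    ext q
    rw [mem_image]
    constructor
    · rintro ⟨i, -, rfl⟩
      exact hmem i
    · intro hq
      refine ⟨eq ⟨q, hq⟩, mem_univ _, ?_⟩
      simp [hπ]
  have hsum : ∀ (f : Ei → ZMod 3), ∑ q ∈ S, f q = ∑ i, f (π i) := by
    intro f
    rw [← himg, sum_image fun a _ b _ h => hinj h]
  refine ⟨n, π, fun i => wt M (π i), ⟨fun i => hS _ (hmem i), fun i j hij hd => ?_,
    fun i => wt_ne M _⟩, ?_, ?_⟩
  · exact hij (hinj (eq_of_dvd (hS _ (hmem j)) (hS _ (hmem i)) hd)).symm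
  · unfold pD el
    have h2 : ∏ q ∈ S, q ^ (wt M q).val = ∏ i, π i ^ (wt M (π i)).val := by
      rw [← himg, prod_image fun a _ b _ h => hinj h]
    rw [← h2]
    have h4 : ∏ q ∈ M, q = ∏ q ∈ S, if q ∈ M then q else 1 := by
      rw [prod_ite_mem, inter_eq_right.2 hM]
    rw [h4, ← prod_mul_distrib]
    refine prod_congr rfl fun q _ => ?_
    unfold wt
    split_ifs with hq
    · have : (2 : ZMod 3).val = 2 := by decide
      rw [this, pow_two]
    · have : (1 : ZMod 3).val = 1 := by decide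
      rw [this, pow_one, mul_one]
  · unfold GdN KerN
    constructor
    · intro hg v a hv ha
      obtain ⟨c', hc'⟩ : ∃ c' : Ei → ZMod 3, ∀ j, c' (π j) = v j :=
        ⟨fun q => if hq : q ∈ S then v (eq ⟨q, hq⟩) else 0, fun j => by simp [hπ]⟩
      have h2 := hg c' a (fun q hq => ?_) (by
        rw [hsum, ← ha]
        exact sum_congr rfl fun j _ => by rw [hc'])
      · exact ⟨fun j => by rw [← hc' j]; exact h2.1 _ (hmem j), h2.2⟩
      · obtain ⟨j, rfl⟩ : ∃ j, π j = q := by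
          rw [← himg, mem_image] at hq
          obtain ⟨j, -, hj⟩ := hq
          exact ⟨j, hj⟩
        rw [hsum, hc', ← hv j]
        congr 1
        exact sum_congr rfl fun k _ => by rw [hc']
    · intro hk v a hv ha
      have h1 := hk (fun i => v (π i)) a (fun j => by
        have h3 := hv (π j) (hmem j)
        rw [hsum] at h3
        exact h3) (by
        rw [hsum] at ha
        exact ha)
      refine ⟨fun q hq => ?_, h1.2⟩
      rw [← himg, mem_image] at hq
      obtain ⟨j, -, rfl⟩ := hq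
      exact h1.1 j

end Pool.Agent.D0H10.L9D
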