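import Pool.Agent.D0H10.L9D.Box
import Pool.Agent.D0H10.L9D.Key
import Pool.Agent.D0H10.L9D.Asy
import Pool.Agent.D0H10.L9D.Tot
import Pool.Agent.D0H10.L9D.Bad
import Pool.Agent.D0H69.L3K.Fin

/-!
# Project L9, module DENKN: the exact proportion over the Eisenstein integers
-/

set_option autoImplicit false

open scoped Classical
open Filter

namespace Pool.Agent.D0H10.L9D

open Pool.Agent.Y692.QS (Ei w nr)
open Pool.Agent.Y703.CT (Dt pD)
open Pool.Agent.Y703.XK (c9)
open Pool.Agent.R419.KF (el)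
open Pool.Agent.N883.FF (ClU ClP)
open Pool.Agent.D0H43.L9 (KerN)
open Pool.Agent.D0H69.L3K (hc9 change)

/-- the asymptotics for one `M` -/
theorem asyN (i : ZMod 3) : AsyN i :=
  asy hc9 badN (key Pool.Agent.Y363.XK.t_BIL)
    (box Pool.Agent.Y710.XK.t_EQ (Pool.Agent.Y85.XK.t_LA Pool.Agent.Y804.XK.t_SYM hc9)) i

/-- **L9-DENKN.** The exact proportion over the Eisenstein integers: among the cube-free primary
elements `z` the proportion of those for which the kernel of the bordered Laplacian of `9 ω ^ i z`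
is trivial tends to `c9 = 0.639…`; `T` is any property equivalent to `KerN` for the nonempty
products of primary primes. -/
theorem denkn (i : ZMod 3) (T : Ei → Prop)
    (hT : ∀ (n : ℕ) (π : Fin (n + 1) → Ei) (e : Fin (n + 1) → ZMod 3), Dt π e →
      (T (pD π e) ↔ KerN π e i)) :
    Tendsto (fun X : ℕ => ({D : Ei | nr D ≤ X ∧ ClP D ∧ T D}.ncard : ℝ) /
      ({D : Ei | nr D ≤ X ∧ ClP D}.ncard : ℝ)) atTop (nhds c9) := by
  refine change (T := fun D => (D = 1 ∧ i ≠ 0) ∨ (D ≠ 1 ∧ T D)) 1 (fun D hD => ?_) ?_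
  · constructor
    · rintro (⟨h1, -⟩ | ⟨-, h2⟩)
      · exact absurd h1 hD
      · exact h2
    · exact fun h => Or.inr ⟨hD, h⟩
  refine tot hc9 Pool.Agent.Y550.XK.NS.t_LOW (asyN i) _ ?_
  intro M S hMS
  rcases S.eq_empty_or_nonempty with rfl | hne
  · have hM : M = ∅ := Finset.subset_empty.1 hMS.2
    subst hM
    have hel : el ∅ ∅ = 1 := by
      unfold el
      simp
    rw [hel]
    constructor
    · rintro (⟨-, hi⟩ | ⟨h1, -⟩)
      · intro v a _ ha
        rw [Finset.sum_empty] at ha
        refine ⟨fun π hπ => absurd hπ (Finset.notMem_empty _), ?_⟩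
        exact (mul_eq_zero.1 ha.symm).resolve_left hi
      · exact absurd rfl h1
    · intro h
      refine Or.inl ⟨rfl, fun hi => ?_⟩
      have h1 := (h (fun _ => 0) 1 (fun π hπ => absurd hπ (Finset.notMem_empty _)) (by
        rw [Finset.sum_empty, hi, zero_mul])).2
      exact absurd h1 (by decide)
  · obtain ⟨n, π, e, hdt, hel, hg⟩ := datt hMS hne i
    have hne1 : el M S ≠ 1 := by
      rw [hel]
      intro h
      have := Pool.Agent.R419.CE.nunit hdt
      rw [h] at this
      exact this isUnit_one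
    have e1 : ((el M S = 1 ∧ i ≠ 0) ∨ (el M S ≠ 1 ∧ T (el M S))) ↔ T (el M S) := by
      constructor
      · rintro (⟨h1, -⟩ | ⟨-, h2⟩)
        · exact absurd h1 hne1
        · exact h2
      · exact fun h => Or.inr ⟨hne1, h⟩
    rw [e1, hel, hT n π e hdt]
    exact hg.symm

end Pool.Agent.D0H10.L9D
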