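import Pool.Agent.D0H69.L3K.Stm
import Pool.Agent.D0H43.L9.Defs

/-!
# Project L9, module DENKN (helper10): statements of the counting part

Everything as in `Pool/Agent/D0H69/L3K/Stm.lean` (helper69), with the bordered kernel (the additional
unknown `a`, the exponent of `ω`, and one additional equation) and two labels `nq π`, `yq π` of the
large primes.
-/

set_option autoImplicit false
set_option linter.unusedVariables false

open scoped Classical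

namespace Pool.Agent.D0H10.L9D

open Finset
open Pool.Agent.Y692.QS (Ei w nr toC)
open Pool.Agent.Y715.T.Rec (cs)
open Pool.Agent.Y715.T.RecG (Pq)
open Pool.Agent.Y699.E (ez nrm QB SB PS mf xab lg)
open Pool.Agent.Y703.CX (jj XX eL zz kk)
open Pool.Agent.Y703.XK (sm la bl prs HB c9 S_BIL S_EQ S_LA S_C9)
open Pool.Agent.R419.KF (wt SG)
open Pool.Agent.N883.FF (nq ClU SU RRU ClP)
open Pool.Agent.D0H43.L3 (KerT tq yq)
open Pool.Agent.D0H43.L9 (qN KerN)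

/-- all solutions of the bordered system are zero -/
def GdN (i : ZMod 3) (M S : Finset Ei) : Prop :=
  ∀ (v : Ei → ZMod 3) (a : ZMod 3),
    (∀ π ∈ S, ∑ ρ ∈ S, wt M ρ * cs π ρ * (v ρ - v π) + a * nq π = qN i π * v π) →
    ∑ ρ ∈ S, wt M ρ * v ρ * nq ρ = i * a → (∀ π ∈ S, v π = 0) ∧ a = 0

/-- the labels of the large primes with respect to the small ones, `nq` and `yq` are not
degenerate -/
def NdN (S₀ S₁ : Finset Ei) : Prop :=
  ∀ (v : Ei → ZMod 3) (t s : ZMod 3), ((∃ u ∈ S₀, v u ≠ 0) ∨ t ≠ 0 ∨ s ≠ 0) →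
    ∃ π ∈ S₁, ∑ u ∈ S₀, v u * cs u π + t * nq π + s * yq π ≠ 0

/-- few sets have degenerate labels. -/
def S_BADN : Prop := ∀ ε : ℝ, 0 < ε → ∃ X₀ : ℕ, ∀ X : ℕ, X₀ ≤ X →
  (((SG X).filter fun S => S.card ≤ kk X ∧ ¬ NdN (sm (zz X) S) (la (zz X) S)).card : ℝ) ≤ ε * X

/-- the count in a box on which `nq` and `yq` are constant. -/
def S_BOXN : Prop := ∀ (i : ZMod 3) (ι : Type) [Fintype ι] [LinearOrder ι]
  (C : ι → Finset Ei) (X : ι → ℕ) (κ : ℝ) (M S₀ : Finset Ei), M ⊆ S₀ → 0 ≤ κ →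
  (∀ i, (C i).card ≤ X i) → HB C X κ → (∀ u ∈ S₀, Pq u) → (∀ i, ∀ π ∈ C i, Pq π ∧ π ∉ S₀) →
  (∀ i l, i ≠ l → Disjoint (C i) (C l)) →
  (∀ i, ∀ π ∈ C i, ∀ ρ ∈ C i, nq π = nq ρ ∧ yq π = yq ρ) →
  S₀.card + 2 < Fintype.card ι →
  |(((Fintype.piFinset C).filter fun p => NdN S₀ (univ.image p) ∧
      GdN i M (S₀ ∪ univ.image p)).card : ℝ) -
      c9 * (((Fintype.piFinset C).filter fun p => NdN S₀ (univ.image p)).card : ℝ)| ≤
    3 * (3 ^ (S₀.card + 2) / 3 ^ Fintype.card ι) *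
      (((Fintype.piFinset C).filter fun p => NdN S₀ (univ.image p)).card : ℝ) +
    3 ^ (S₀.card * Fintype.card ι + (prs ι).card) * (κ * ∏ j, (X j : ℝ))

/-- the sum over the boxes. -/
def S_KEYN : Prop := S_BOXN → ∀ (i : ZMod 3), ∃ C : ℝ, 1 ≤ C ∧
  ∀ (M : Finset Ei) (X z H k V N : ℕ) (κ : ℝ), (∀ q ∈ M, nrm q ≤ z) → 1 ≤ X → 1 ≤ H → 1 ≤ z →
  2 ≤ V → 0 ≤ κ → C ≤ κ ^ 24 * z → (H : ℝ) * Real.log X < N →
  |(((RRU M X z H k V).filter fun S => NdN (sm z S) (la z S) ∧ GdN i M S).card : ℝ) -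
      c9 * (((RRU M X z H k V).filter fun S => NdN (sm z S) (la z S)).card : ℝ)| ≤
    9 * (1 / 3 : ℝ) ^ V * ((RRU M X z H k V).card : ℝ) +
    (9 * N + 9 : ℝ) ^ k * (3 ^ (9 * k ^ 2 + 9) * κ) * (X * (1 + Real.log X))

/-- the asymptotics for one `M`. -/
def AsyN (i : ZMod 3) : Prop := ∀ (M : Finset Ei) (ε : ℝ),
  0 < ε → ∃ X₀ : ℕ, ∀ X : ℕ, X₀ ≤ X →
    |(((SU M X).filter (GdN i M)).card : ℝ) - c9 * ((SU M X).card : ℝ)| ≤ ε * X

end Pool.Agent.D0H10.L9D
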